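import Pool.Agent.W247.ET.Stm

/-!
# Project ET, part POS (finite sums)
-/

set_option autoImplicit false

open Finset

namespace Pool.Agent.W19.ET

open Pool.Agent.W247.ET

theorem sum_shift (L J : ℕ) (h : ℤ → ℝ) (T : ℤ) (hh : ∀ j : ℤ, (L : ℤ) < |j| → h j = 0)
    (hT : (L : ℤ) + J ≤ T) (i : ℕ) (hi : i ≤ J) :
    ∑ j ∈ Icc (-T) T, h (j + i) = ∑ j ∈ Icc (-(L : ℤ)) L, h j := by
  have h1 : ∑ j ∈ Icc (-T) T, h (j + i) = ∑ j ∈ Icc (-T + i) (T + i), h j := by
    rw [← Finset.image_add_right_Icc, Finset.sum_image]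
    intro x _ y _ hxy
    exact add_right_cancel hxy
  rw [h1]
  symm
  refine Finset.sum_subset (Finset.Icc_subset_Icc (by omega) (by omega)) ?_
  intro x _ hx
  apply hh
  rw [Finset.mem_Icc] at hx
  rw [lt_abs]
  by_contra hcon
  push Not at hcon
  exact hx ⟨by omega, by omega⟩

theorem sq_diff (J : ℕ) (a : ℕ → ℝ) :
    ∑ i ∈ range J, ∑ i' ∈ range J, (a i - a i') ^ 2 =
      2 * J * ∑ i ∈ range J, a i ^ 2 - 2 * (∑ i ∈ range J, a i) ^ 2 := by
  have h1 : ∀ i i' : ℕ, (a i - a i') ^ 2 = a i ^ 2 + a i' ^ 2 - 2 * (a i * a i') := by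
    intro i i'
    ring
  simp only [h1, Finset.sum_sub_distrib, Finset.sum_add_distrib, Finset.sum_const,
    Finset.card_range, nsmul_eq_mul, ← Finset.mul_sum, ← Finset.sum_mul]
  ring

theorem main : Pool.Agent.W247.ET.POS_stmt := by
  intro L J g T hJ hg hT
  have hJ0 : (0 : ℝ) < J := by exact_mod_cast hJ
  obtain ⟨S, hS⟩ : ∃ S : ℝ, S = ∑ j ∈ Icc (-T) T, g j ^ 2 := ⟨_, rfl⟩
  obtain ⟨X, hX⟩ : ∃ X : ℝ, X = ∑ j ∈ Icc (-T) T, (∑ i ∈ range J, g (j + i)) ^ 2 := ⟨_, rfl⟩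
  have hS0 : 0 ≤ S := by
    rw [hS]
    exact Finset.sum_nonneg fun j _ => sq_nonneg _
  have hsh : ∀ i ∈ range J, ∑ j ∈ Icc (-T) T, g (j + (i : ℤ)) ^ 2 = S := by
    intro i hi
    have h0 := sum_shift L J (fun j => g j ^ 2) T (fun j hj => by
      rw [hg j hj]
      norm_num) hT i (Finset.mem_range.1 hi).le
    have h1 := sum_shift L J (fun j => g j ^ 2) T (fun j hj => by
      rw [hg j hj]
      norm_num) hT 0 (Nat.zero_le _)
    simp only [Nat.cast_zero, add_zero] at h1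
    rw [h0, hS, h1]
  obtain ⟨D, hD⟩ : ∃ D : ℝ, D = ∑ j ∈ Icc (-T) T, ∑ i ∈ range J, ∑ i' ∈ range J,
      (g (j + (i : ℤ)) - g (j + (i' : ℤ))) ^ 2 := ⟨_, rfl⟩
  have hDX : D = 2 * (J : ℝ) ^ 2 * S - 2 * X := by
    have h1 : D = ∑ j ∈ Icc (-T) T, (2 * (J : ℝ) * ∑ i ∈ range J, g (j + (i : ℤ)) ^ 2 -
        2 * (∑ i ∈ range J, g (j + (i : ℤ))) ^ 2) := by
      rw [hD]
      exact Finset.sum_congr rfl fun j _ => sq_diff J (fun i => g (j + (i : ℤ)))
    rw [h1, Finset.sum_sub_distrib, ← Finset.mul_sum, ← Finset.mul_sum, ← hX,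
      Finset.sum_comm, Finset.sum_congr rfl hsh, Finset.sum_const, Finset.card_range,
      nsmul_eq_mul]
    ring
  have hD0 : 0 ≤ D := by
    rw [hD]
    exact Finset.sum_nonneg fun j _ => Finset.sum_nonneg fun i _ => Finset.sum_nonneg
      fun i' _ => sq_nonneg _
  have hE : S - X / (J : ℝ) ^ 2 = D / (2 * (J : ℝ) ^ 2) := by
    rw [hDX]
    field_simp
  rw [← hS, ← hX, hE]
  refine ⟨by positivity, ?_⟩
  -- the two terms
  have hpair : ∀ i ∈ range J, ∀ i' ∈ range J,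
      (g 0 - g ((i' : ℤ) - i)) ^ 2 + (g ((i : ℤ) - i') - g 0) ^ 2 ≤
        ∑ j ∈ Icc (-T) T, (g (j + (i : ℤ)) - g (j + (i' : ℤ))) ^ 2 := by
    intro i hi i' hi'
    rw [Finset.mem_range] at hi hi'
    by_cases hii : i = i'
    · rw [hii, sub_self, sub_self]
      norm_num
    · have hne : (-(i : ℤ)) ≠ -(i' : ℤ) := by
        intro h
        apply hii
        omega
      have hsub : ({-(i : ℤ), -(i' : ℤ)} : Finset ℤ) ⊆ Icc (-T) T := by
        intro x hx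
        rw [Finset.mem_insert, Finset.mem_singleton] at hx
        rw [Finset.mem_Icc]
        rcases hx with rfl | rfl
        · constructor <;> omega
        · constructor <;> omega
      have h1 := Finset.sum_le_sum_of_subset_of_nonneg (f := fun j : ℤ =>
        (g (j + (i : ℤ)) - g (j + (i' : ℤ))) ^ 2) hsub (fun j _ _ => sq_nonneg _)
      rw [Finset.sum_pair hne] at h1
      have e1 : -(i : ℤ) + i = 0 := by ring
      have e2 : -(i : ℤ) + i' = (i' : ℤ) - i := by ring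
      have e3 : -(i' : ℤ) + i = (i : ℤ) - i' := by ring
      have e4 : -(i' : ℤ) + i' = 0 := by ring
      simp only [e1, e2, e3, e4] at h1
      exact h1
  have hlow : ∑ i ∈ range J, ∑ i' ∈ range J,
      ((g 0 - g ((i' : ℤ) - i)) ^ 2 + (g ((i : ℤ) - i') - g 0) ^ 2) ≤ D := by
    have h1 : D = ∑ i ∈ range J, ∑ i' ∈ range J, ∑ j ∈ Icc (-T) T,
        (g (j + (i : ℤ)) - g (j + (i' : ℤ))) ^ 2 := by
      rw [hD, Finset.sum_comm]
      exact Finset.sum_congr rfl fun i _ => Finset.sum_comm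
    rw [h1]
    exact Finset.sum_le_sum fun i hi => Finset.sum_le_sum fun i' hi' => hpair i hi i' hi'
  -- Cauchy-Schwarz
  have hcs : ∀ f : ℕ → ℤ, (∀ i < J, ∀ i' < J, f i = f i' → i = i') →
      (∀ i < J, f i ∈ Icc (-T) T) → |∑ i ∈ range J, g (f i)| ≤ √((J : ℝ) * S) := by
    intro f hf hf2
    apply Real.abs_le_sqrt
    have h1 := sq_sum_le_card_mul_sum_sq (s := range J) (f := fun i => g (f i))
    rw [Finset.card_range] at h1
    refine h1.trans (mul_le_mul_of_nonneg_left ?_ hJ0.le)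
    have h2 : ∑ i ∈ range J, g (f i) ^ 2 = ∑ k ∈ (range J).image f, g k ^ 2 := by
      rw [Finset.sum_image]
      intro x hx y hy hxy
      exact hf x (Finset.mem_range.1 hx) y (Finset.mem_range.1 hy) hxy
    rw [h2, hS]
    refine Finset.sum_le_sum_of_subset_of_nonneg ?_ fun j _ _ => sq_nonneg _
    intro x hx
    rw [Finset.mem_image] at hx
    obtain ⟨i, hi, rfl⟩ := hx
    exact hf2 i (Finset.mem_range.1 hi)
  obtain ⟨A, hA⟩ : ∃ A : ℝ, A = ∑ i ∈ range J, ∑ i' ∈ range J, g ((i' : ℤ) - i) := ⟨_, rfl⟩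
  obtain ⟨B, hB⟩ : ∃ B : ℝ, B = ∑ i ∈ range J, ∑ i' ∈ range J, g ((i : ℤ) - i') := ⟨_, rfl⟩
  have hA1 : |A| ≤ J * √((J : ℝ) * S) := by
    rw [hA]
    refine (Finset.abs_sum_le_sum_abs _ _).trans ?_
    have h1 : ∑ i ∈ range J, |∑ i' ∈ range J, g ((i' : ℤ) - i)| ≤
        ∑ _i ∈ range J, √((J : ℝ) * S) := by
      refine Finset.sum_le_sum fun i hi => hcs (fun i' => (i' : ℤ) - i) ?_ ?_
      · intro a _ b _ hab
        omega
      · intro a ha
        have := Finset.mem_range.1 hi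
        rw [Finset.mem_Icc]
        constructor <;> omega
    rwa [Finset.sum_const, Finset.card_range, nsmul_eq_mul] at h1
  have hB1 : |B| ≤ J * √((J : ℝ) * S) := by
    rw [hB]
    refine (Finset.abs_sum_le_sum_abs _ _).trans ?_
    have h1 : ∑ i ∈ range J, |∑ i' ∈ range J, g ((i : ℤ) - i')| ≤
        ∑ _i ∈ range J, √((J : ℝ) * S) := by
      refine Finset.sum_le_sum fun i hi => hcs (fun i' => (i : ℤ) - i') ?_ ?_
      · intro a _ b _ hab
        omega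
      · intro a ha
        have := Finset.mem_range.1 hi
        rw [Finset.mem_Icc]
        constructor <;> omega
    rwa [Finset.sum_const, Finset.card_range, nsmul_eq_mul] at h1
  have hg0 : |g 0| ≤ √S := by
    apply Real.abs_le_sqrt
    rw [hS]
    refine Finset.single_le_sum (f := fun j : ℤ => g j ^ 2) (fun j _ => sq_nonneg _) ?_
    rw [Finset.mem_Icc]
    constructor <;> omega
  have hlow2 : 2 * (J : ℝ) ^ 2 * g 0 ^ 2 - 2 * g 0 * (A + B) ≤ D := by
    refine le_trans ?_ hlow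
    have h1 : 2 * (J : ℝ) ^ 2 * g 0 ^ 2 - 2 * g 0 * (A + B) =
        ∑ i ∈ range J, ∑ i' ∈ range J,
          (2 * g 0 ^ 2 - 2 * g 0 * g ((i' : ℤ) - i) - 2 * g 0 * g ((i : ℤ) - i')) := by
      simp only [Finset.sum_sub_distrib, Finset.sum_const, Finset.card_range, nsmul_eq_mul,
        ← Finset.mul_sum]
      rw [← hA, ← hB]
      ring
    rw [h1]
    refine Finset.sum_le_sum fun i _ => Finset.sum_le_sum fun i' _ => ?_
    nlinarith [sq_nonneg (g ((i' : ℤ) - i)), sq_nonneg (g ((i : ℤ) - i'))]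
  obtain ⟨q, hq⟩ : ∃ q : ℝ, q = √(J : ℝ) := ⟨_, rfl⟩
  have hq0 : 0 < q := by
    rw [hq]
    exact Real.sqrt_pos.2 hJ0
  have hqJ : q ^ 2 = J := by
    rw [hq]
    exact Real.sq_sqrt hJ0.le
  obtain ⟨s, hs⟩ : ∃ s : ℝ, s = √S := ⟨_, rfl⟩
  have hs0 : 0 ≤ s := by
    rw [hs]
    exact Real.sqrt_nonneg _
  have hsS : s ^ 2 = S := by
    rw [hs]
    exact Real.sq_sqrt hS0
  rw [Real.sqrt_mul hJ0.le, ← hq, ← hs] at hA1 hB1
  rw [← hs] at hg0
  rw [← hq]
  have hprod : g 0 * (A + B) ≤ s * (2 * (J * (q * s))) := by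
    have h1 : |A + B| ≤ 2 * (J * (q * s)) := (abs_add_le A B).trans (by linarith)
    calc g 0 * (A + B) ≤ |g 0 * (A + B)| := le_abs_self _
      _ = |g 0| * |A + B| := abs_mul _ _
      _ ≤ s * (2 * (J * (q * s))) := mul_le_mul hg0 h1 (abs_nonneg _) hs0
  rw [le_div_iff₀ (by positivity)]
  have h2 : (g 0 ^ 2 - 2 / q * S) * (2 * (J : ℝ) ^ 2) =
      2 * (J : ℝ) ^ 2 * g 0 ^ 2 - 4 * (J * (q * S)) := by
    rw [← hqJ]
    field_simp
    ring
  rw [h2, ← hsS]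
  nlinarith [hlow2, hprod]

end Pool.Agent.W19.ET
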